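import Pool.Agent.H43R3.SN.PartAB
import Pool.Agent.H875R3.SN.EXC
import Pool.Agent.H43R3.SN.EXL_h835
import Pool.Agent.H28R3.SN.RUN
import Pool.Agent.H42R3.SN.Hull
import Pool.Agent.H43R3.SN.ZONE
import Pool.Agent.H343R3.SN.CNT
import Pool.Agent.H993R3.SN.E
import Pool.Agent.H43R3.SN.F
import Pool.Agent.H170.SN.TaskG
import Pool.Agent.H43R3.SN.TaskH
import Pool.Agent.H603R3.SN.CAP
import Pool.Agent.H957R3.SN.Cons
import Pool.Agent.H43R3.SN.SRC
import Pool.Agent.H243R3.SN.Poly

/-!
# Computing the sum number of a graph is NP-hard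

Reduction from exact cover by 3-sets, through bin packing with numbers in unary.  The graphs are
complements of very sparse graphs: then no sum of the labels of an edge is the label of a vertex of
the graph, and a labelling with few different sums has all its labels in one arithmetic progression
with few holes.  Two threshold graphs in the complement must lie at the two ends of the
progression; one of them, with additional vertices, forces the two other sums of non-adjacent pairs
to differ by `2 b`, where `b` is the number of bins; long paths in the complement are the items, they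
live in residue classes modulo `2 b`, and two classes form a bin.
-/

set_option autoImplicit false

namespace Pool.Agent.Results.MP_daf980_lc.SumNumberNPHard

open Pool.Agent.NPC Pool.Agent.H692R2

/-- `H` is a sum graph: its vertices can be labelled by different positive integers such that
different vertices `u, v` are adjacent iff the sum of their labels is the label of a vertex. -/
def IsSumGraph {V : Type} (H : SimpleGraph V) : Prop :=
  ∃ l : V → ℕ, Function.Injective l ∧ (∀ v, 0 < l v) ∧
    ∀ u v, u ≠ v → (H.Adj u v ↔ ∃ w, l u + l v = l w)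

/-- The disjoint union of `G` with `s` isolated vertices. -/
def addIsolated {V : Type} (G : SimpleGraph V) (s : ℕ) : SimpleGraph (V ⊕ Fin s) :=
  SimpleGraph.sum G (⊥ : SimpleGraph (Fin s))

/-- The sum number of a graph: the least `s` such that `G` with `s` isolated vertices is a sum
graph (see `sumNumber_spec`: the minimum exists). -/
noncomputable def sumNumber {V : Type} (G : SimpleGraph V) : ℕ :=
  sInf {s | IsSumGraph (addIsolated G s)}

open Pool.Agent.H43R3.SN in
theorem isSumGraph_iff {V : Type} (G : SimpleGraph V) (s : ℕ) :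
    IsSumGraph (addIsolated G s) ↔ ∃ l, IsLab G s l := by
  constructor
  · rintro ⟨l, h1, h2, h3⟩
    refine ⟨l, h1, h2, ?_, ?_⟩
    · intro u v huv
      have h4 := h3 (Sum.inl u) (Sum.inl v) (fun h => huv (Sum.inl_injective h))
      have h5 : (addIsolated G s).Adj (Sum.inl u) (Sum.inl v) ↔ G.Adj u v := by
        simp [addIsolated]
      rw [← h5, h4]
      exact ⟨fun ⟨w, hw⟩ => ⟨w, hw.symm⟩, fun ⟨w, hw⟩ => ⟨w, hw.symm⟩⟩
    · intro x i hx w hw
      have h4 := (h3 x (Sum.inr i) hx).2 ⟨w, hw.symm⟩
      cases x <;> simp [addIsolated] at h4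
  · rintro ⟨l, h1, h2, h3, h4⟩
    refine ⟨l, h1, h2, ?_⟩
    intro x y hxy
    rcases y with v | i
    · rcases x with u | i
      · have h5 : (addIsolated G s).Adj (Sum.inl u) (Sum.inl v) ↔ G.Adj u v := by
          simp [addIsolated]
        rw [h5, h3 u v (fun h => hxy (by rw [h]))]
        exact ⟨fun ⟨w, hw⟩ => ⟨w, hw.symm⟩, fun ⟨w, hw⟩ => ⟨w, hw.symm⟩⟩
      · constructor
        · intro h5
          simp [addIsolated] at h5
        · rintro ⟨w, hw⟩
          exact absurd (by rw [← hw, add_comm]) (h4 (Sum.inl v) i (Ne.symm hxy) w)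
    · constructor
      · intro h5
        rcases x with u | j <;> simp [addIsolated] at h5
      · rintro ⟨w, hw⟩
        exact absurd hw.symm (h4 x i hxy w)

theorem sidon {u v x y : ℕ} (h1 : u < v) (h2 : x < y) (h : 2 ^ u + 2 ^ v = 2 ^ x + 2 ^ y) :
    u = x ∧ v = y := by
  have hp : ∀ {a b : ℕ}, a < b → 2 ^ a < 2 ^ b := fun h => Nat.pow_lt_pow_right (by norm_num) h
  have hq : ∀ {a b : ℕ}, a < b → 2 * 2 ^ a ≤ 2 ^ b := fun {a b} h => by
    calc 2 * 2 ^ a = 2 ^ (a + 1) := by ring
      _ ≤ 2 ^ b := Nat.pow_le_pow_right (by norm_num) h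
  have hpos : ∀ a : ℕ, 0 < 2 ^ a := fun a => by positivity
  rcases lt_trichotomy v y with h3 | h3 | h3
  · have := hp h1; have := hq h3; have := hpos x; omega
  · subst h3
    exact ⟨Nat.pow_right_injective (le_refl 2) (by simpa using h), rfl⟩
  · have := hp h2; have := hq h3; have := hpos u; omega

open Pool.Agent.H43R3.SN in
/-- The minimum defining the sum number exists. -/
theorem exists_isSumGraph (n : ℕ) (G : SimpleGraph (Fin n)) :
    ∃ s, IsSumGraph (addIsolated G s) := by
  classical
  set W : Finset ℕ := (Finset.univ.filter (fun p : Fin n × Fin n => G.Adj p.1 p.2)).image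
    (fun p => 2 ^ (p.1 : ℕ) + 2 ^ (p.2 : ℕ)) with hW
  obtain ⟨l, hl⟩ := taskEXL (Fin n) G (fun i => 2 ^ (i : ℕ)) (2 ^ n) W
    (by
      intro i j hij
      exact Fin.ext (Nat.pow_right_injective (le_refl 2) hij))
    (fun v => Nat.pow_le_pow_right (by norm_num) v.2.le)
    (by
      intro u v huv
      rw [hW, Finset.mem_image]
      constructor
      · intro h
        exact ⟨(u, v), Finset.mem_filter.2 ⟨Finset.mem_univ _, h⟩, rfl⟩
      · rintro ⟨⟨x, y⟩, h1, h2⟩
        rw [Finset.mem_filter] at h1
        have h3 : G.Adj x y := h1.2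
        have hxy := h3.ne
        simp only at h2
        rcases lt_or_gt_of_ne (fun h => huv (Fin.ext h) : (u : ℕ) ≠ v) with h4 | h4 <;>
        rcases lt_or_gt_of_ne (fun h => hxy (Fin.ext h) : (x : ℕ) ≠ y) with h5 | h5
        · obtain ⟨h6, h7⟩ := sidon h5 h4 h2
          rw [← Fin.ext h6, ← Fin.ext h7]; exact h3
        · obtain ⟨h6, h7⟩ := sidon h5 h4 (by rw [add_comm]; exact h2)
          rw [← Fin.ext h6, ← Fin.ext h7]; exact h3.symm
        · obtain ⟨h6, h7⟩ := sidon h5 h4 (by rw [h2, add_comm])
          rw [← Fin.ext h6, ← Fin.ext h7]; exact h3.symm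
        · obtain ⟨h6, h7⟩ := sidon h5 h4 (by rw [add_comm, h2, add_comm])
          rw [← Fin.ext h6, ← Fin.ext h7]; exact h3)
    (by
      intro w hw
      rw [hW, Finset.mem_image] at hw
      obtain ⟨⟨x, y⟩, _, h2⟩ := hw
      have h3 : 2 ^ (x : ℕ) ≤ 2 ^ n := Nat.pow_le_pow_right (by norm_num) x.2.le
      have h4 : 2 ^ (y : ℕ) ≤ 2 ^ n := Nat.pow_le_pow_right (by norm_num) y.2.le
      simp only at h2
      omega)
  exact ⟨W.card, (isSumGraph_iff G _).2 ⟨l, hl⟩⟩

theorem sumNumber_le_iff {n : ℕ} (G : SimpleGraph (Fin n)) (k : ℕ) :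
    sumNumber G ≤ k ↔ ∃ s ≤ k, IsSumGraph (addIsolated G s) := by
  constructor
  · intro h
    exact ⟨sumNumber G, h, Nat.sInf_mem (s := {s | IsSumGraph (addIsolated G s)})
      (exists_isSumGraph n G)⟩
  · rintro ⟨s, hs, h⟩
    exact (Nat.sInf_le h).trans hs

open Pool.Agent.H43R3.SN Pool.Agent.NPC.H632 Pool.Agent.H557R2.Tri in
theorem red_correct (I : List (ℕ × ℕ × ℕ) × ℕ) (hI : Pr I.1 I.2) :
    X3C I ↔ sumNumber (redI I).1.graph ≤ (redI I).2 := by
  have hq : redI I = redJ I := by
    unfold redI
    rw [Nat.min_eq_left (Pool.Agent.NPC.SNP.q_le hI)]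
  rw [hq, Pool.Agent.H43R3.SN.SRC.taskSRC I hI, sumNumber_le_iff]
  simp only [isSumGraph_iff]
  have hb : 1 ≤ bb I := by
    have := hI.ne
    have h2 : 0 < I.1.length := List.length_pos_iff.2 this
    unfold bb
    omega
  have hpos : ∀ i < (sizes I).length, 1 ≤ (sizes I).getD i 0 := by
    intro i hi
    rw [List.getD_eq_getElem _ _ hi]
    have h1 : (sizes I)[i] ∈ sizes I := List.getElem_mem hi
    unfold sizes at h1
    rw [List.mem_map] at h1
    obtain ⟨e, _, he⟩ := h1
    have h2 : (sizes I)[i] = min (Pool.Agent.H43R3.SN.sz I.1.length I.2 e) (20 * MM I.1.length I.2) := by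
      rw [he]; rfl
    rw [h2]
    have h3 : 1 ≤ MM I.1.length I.2 := by unfold MM; omega
    have h4 : 1 ≤ wt e.1 := by unfold wt; split_ifs <;> norm_num
    have h5 : 1 ≤ MM I.1.length I.2 * wt e.1 := Nat.one_le_iff_ne_zero.2 (by
      intro h; rcases Nat.mul_eq_zero.1 h with h | h <;> omega)
    refine le_min ?_ (by omega)
    unfold Pool.Agent.H43R3.SN.sz
    omega
  by_cases hsum : (sizes I).sum = bb I * BB I
  · have hJ : redJ I = (grI (sizes I) (bb I) (BB I), kI (sizes I) (bb I) (BB I)) := by
      unfold redJ; rw [if_pos hsum]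
    rw [hJ]
    constructor
    · rintro ⟨_, h⟩
      exact partB Pool.Agent.H957R3.SN.taskCONS taskEXL hb h
    · rintro ⟨s, hs, l, hl⟩
      exact ⟨hsum, partA Pool.Agent.H993R3.SN.taskE taskF Pool.Agent.H170.SN.taskG taskH
        Pool.Agent.H603R3.SN.taskCAP Pool.Agent.H28R3.SN.RUN.run Pool.Agent.H42R3.SN.taskHULL
        Pool.Agent.H43R3.SN.ZONE.taskZONE Pool.Agent.H343R3.SN.taskCNT taskEXC hb hpos hsum hs hl⟩
  · have hJ : redJ I = (⟨2, ⊤⟩, 0) := by
      unfold redJ; rw [if_neg hsum]
    rw [hJ]
    constructor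
    · rintro ⟨h, _⟩
      exact absurd h hsum
    · rintro ⟨s, hs, l, h1, h2, h3, h4⟩
      exfalso
      have hs0 : s = 0 := Nat.le_zero.1 hs
      subst hs0
      obtain ⟨w, hw⟩ := (h3 (0 : Fin 2) (1 : Fin 2) (by decide)).1 (by
        show (⊤ : SimpleGraph (Fin 2)).Adj 0 1
        simp)
      have ha := h2 (Sum.inl (0 : Fin 2))
      have hb := h2 (Sum.inl (1 : Fin 2))
      rcases w with w | w
      · have hw2 : w = (0 : Fin 2) ∨ w = (1 : Fin 2) := by
          have : ∀ x : Fin 2, x = 0 ∨ x = 1 := by decide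
          exact this w
        rcases hw2 with rfl | rfl
        · omega
        · omega
      · exact w.elim0

/-- The minimum in the definition of the sum number exists: it is attained. -/
theorem sumNumber_spec (n : ℕ) (G : SimpleGraph (Fin n)) :
    IsSumGraph (addIsolated G (sumNumber G)) :=
  Nat.sInf_mem (s := {s | IsSumGraph (addIsolated G s)}) (exists_isSumGraph n G)

/-- **SUM NUMBER is NP-hard.** It is NP-hard (under polynomial-time many-one reductions) to decide,
for a finite graph `G` (given by its adjacency matrix) and a natural number `k` (given in binary),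
whether the sum number of `G` is at most `k`. -/
theorem result : NPHardP (fun I : FinGraph × ℕ => sumNumber I.1.graph ≤ I.2) :=
  (Pool.Agent.H557R2.Tri.hardPr_X3Cr.trans (Pr' := fun _ => True)
    Pool.Agent.NPC.SNP.taskPOLY (fun _ _ => trivial) red_correct).toHardI.toNPHardP

end Pool.Agent.Results.MP_daf980_lc.SumNumberNPHard
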